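import Mathlib

set_option autoImplicit false

/-! Explicit residue systems of the Gaussian integers: `Z[i] / l` has `N(l)` elements. -/

namespace Pool.Agent.WAP.H45

theorem norm_eq_sq (l : GaussianInt) : l.norm = l.re * l.re + l.im * l.im := by
  rw [Zsqrtd.norm_def]
  ring

/-- A complete system of representatives of `Z[i] / l` with `N(l)` elements. -/
theorem exists_reps (l : GaussianInt) (hl : l ≠ 0) :
    ∃ R : Finset GaussianInt, R.card = l.norm.natAbs ∧
      (∀ a ∈ R, ∀ b ∈ R, l ∣ a - b → a = b) ∧ (∀ z : GaussianInt, ∃ a ∈ R, l ∣ z - a) := by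
  classical
  set x := l.re with hx
  set y := l.im with hy
  set g : ℕ := Int.gcd x y with hg
  have hxy : x ≠ 0 ∨ y ≠ 0 := by
    by_contra h
    push Not at h
    apply hl
    apply Zsqrtd.ext
    · exact h.1
    · exact h.2
  have hg0 : 0 < g := by
    rw [hg, Nat.pos_iff_ne_zero]
    intro h
    rw [Int.gcd_eq_zero_iff] at h
    rcases hxy with h1 | h1
    · exact h1 h.1
    · exact h1 h.2
  obtain ⟨x', hx'⟩ : (g : ℤ) ∣ x := Int.gcd_dvd_left x y
  obtain ⟨y', hy'⟩ : (g : ℤ) ∣ y := Int.gcd_dvd_right x y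
  have hN : l.norm = x * x + y * y := norm_eq_sq l
  have hNpos : 0 < l.norm := by
    rw [hN]
    rcases hxy with h1 | h1
    · have := mul_self_pos.2 h1
      have := mul_self_nonneg y
      omega
    · have := mul_self_pos.2 h1
      have := mul_self_nonneg x
      omega
  have hgz : (0 : ℤ) < g := by exact_mod_cast hg0
  -- the real period
  set m : ℕ := (g * (x' * x' + y' * y')).natAbs with hm
  have hmz : (m : ℤ) = g * (x' * x' + y' * y') := by
    rw [hm, Int.natCast_natAbs, abs_of_nonneg]
    have := mul_self_nonneg x'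
    have := mul_self_nonneg y'
    positivity
  have hNm : l.norm = g * m := by
    rw [hN, hmz, hx', hy']
    ring
  have hm0 : (0 : ℤ) < m := by
    by_contra h
    have h2 : (m : ℤ) = 0 := by
      have : (0 : ℤ) ≤ m := Int.natCast_nonneg m
      omega
    rw [hNm, h2] at hNpos
    simp at hNpos
  set f : ℕ × ℕ → GaussianInt := fun p => ⟨(p.1 : ℤ), (p.2 : ℤ)⟩ with hf
  have hinj : Function.Injective f := by
    intro p q h
    have h1 := congrArg Zsqrtd.re h
    have h2 := congrArg Zsqrtd.im h
    simp only [hf] at h1 h2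
    exact Prod.ext (by exact_mod_cast h1) (by exact_mod_cast h2)
  refine ⟨(Finset.range m ×ˢ Finset.range g).image f, ?_, ?_, ?_⟩
  · rw [Finset.card_image_of_injective _ hinj, Finset.card_product, Finset.card_range,
      Finset.card_range, hNm, Int.natAbs_mul, Int.natAbs_natCast, Int.natAbs_natCast, mul_comm]
  · intro a ha b hb hdvd
    rw [Finset.mem_image] at ha hb
    obtain ⟨p, hp, rfl⟩ := ha
    obtain ⟨q, hq, rfl⟩ := hb
    rw [Finset.mem_product, Finset.mem_range, Finset.mem_range] at hp hq
    obtain ⟨w, hw⟩ := hdvd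
    have h1 := congrArg Zsqrtd.re hw
    have h2 := congrArg Zsqrtd.im hw
    simp only [Zsqrtd.re_sub, Zsqrtd.im_sub, Zsqrtd.re_mul, Zsqrtd.im_mul, ← hx, ← hy, hf] at h1 h2
    -- imaginary parts
    have h3 : (g : ℤ) ∣ (p.2 : ℤ) - q.2 := by
      rw [h2, hx', hy']
      exact ⟨x' * w.im + y' * w.re, by ring⟩
    have h4 : (p.2 : ℤ) - q.2 = 0 := by
      apply Int.eq_zero_of_abs_lt_dvd h3
      rw [abs_lt]
      constructor <;> omega
    -- real parts
    have h5 : ((p.1 : ℤ) - q.1) * x = l.norm * w.re := by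
      rw [hN]
      rw [h4] at h2
      have h6 : (p.1 : ℤ) - q.1 = x * w.re - y * w.im := by linear_combination h1
      linear_combination x * h6 + y * h2
    have h6 : ((p.1 : ℤ) - q.1) * y = - l.norm * w.im := by
      rw [hN]
      rw [h4] at h2
      have h6 : (p.1 : ℤ) - q.1 = x * w.re - y * w.im := by linear_combination h1
      linear_combination y * h6 - x * h2
    have h7 : (m : ℤ) ∣ (p.1 : ℤ) - q.1 := by
      have hb := Int.gcd_eq_gcd_ab x y
      rw [← hg] at hb
      have h8 : (g : ℤ) * ((p.1 : ℤ) - q.1) =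
          g * (m * (w.re * Int.gcdA x y - w.im * Int.gcdB x y)) := by
        have : (g : ℤ) * ((p.1 : ℤ) - q.1) = ((p.1 : ℤ) - q.1) * (x * Int.gcdA x y + y * Int.gcdB x y) := by
          rw [← hb]; ring
        rw [this, ← mul_assoc (g : ℤ), ← hNm]
        linear_combination Int.gcdA x y * h5 + Int.gcdB x y * h6
      exact ⟨_, mul_left_cancel₀ (ne_of_gt hgz) h8⟩
    have h8 : (p.1 : ℤ) - q.1 = 0 := by
      apply Int.eq_zero_of_abs_lt_dvd h7
      rw [abs_lt]
      constructor <;> omega
    congr 1
    exact Prod.ext (by omega) (by omega)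
  · intro z
    have hb := Int.gcd_eq_gcd_ab x y
    rw [← hg] at hb
    set k := z.im / g with hk
    -- subtract a multiple with imaginary part `g * k`
    set r := z.re - k * (x * Int.gcdB x y - y * Int.gcdA x y) with hr
    refine ⟨f ((r % m).toNat, (z.im % g).toNat), ?_, ?_⟩
    · rw [Finset.mem_image]
      refine ⟨_, ?_, rfl⟩
      rw [Finset.mem_product, Finset.mem_range, Finset.mem_range]
      have e1 := Int.emod_nonneg r (ne_of_gt hm0)
      have e2 := Int.emod_lt_of_pos r hm0
      have e3 := Int.emod_nonneg z.im (ne_of_gt hgz)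
      have e4 := Int.emod_lt_of_pos z.im hgz
      constructor <;> simp only <;> omega
    · have e1 := Int.emod_nonneg r (ne_of_gt hm0)
      have e3 := Int.emod_nonneg z.im (ne_of_gt hgz)
      refine ⟨⟨k * Int.gcdB x y + (r / m) * x', k * Int.gcdA x y - (r / m) * y'⟩, ?_⟩
      have e5 := Int.emod_add_mul_ediv r m
      have e6 := Int.emod_add_mul_ediv z.im g
      apply Zsqrtd.ext
      · simp only [Zsqrtd.re_sub, Zsqrtd.re_mul, ← hx, ← hy, hf, Int.toNat_of_nonneg e1]
        have e7 : x * x' + y * y' = m := by rw [hmz, hx', hy']; ring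
        linear_combination (-1 : ℤ) * e5 + hr - (r / m) * e7
      · simp only [Zsqrtd.im_sub, Zsqrtd.im_mul, ← hx, ← hy, hf, Int.toNat_of_nonneg e3]
        have e8 : y * x' = x * y' := by
          rw [hx', hy']; ring
        linear_combination (-1 : ℤ) * e6 + k * hb - (r / m) * e8
end Pool.Agent.WAP.H45
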