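import Pool.Agent.WAP.StmtsL
import Pool.Agent.Helper45_WAP.Rep

set_option autoImplicit false

namespace Pool.Agent.WAP.H45

open Classical WeierstrassCurve.Affine

section tor

variable {F : Type} [Field F] {d : F}

theorem tor_eq (h2 : (2 : F) ≠ 0) (hd : d ≠ 0) {e : F} (he : e ^ 3 = e) :
    ∃ h, tor d e = (Point.some (e * d) 0 h : Pt d) := by
  have h : (W d).Nonsingular (e * d) 0 := by
    rw [W_nonsingular d _ _ h2 hd]
    linear_combination -d ^ 3 * he
  refine ⟨h, ?_⟩
  unfold tor mkPt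
  rw [dif_pos h]

theorem tor_ne (h2 : (2 : F) ≠ 0) (hd : d ≠ 0) {e : F} (he : e ^ 3 = e) : tor d e ≠ 0 := by
  obtain ⟨h, h'⟩ := tor_eq h2 hd he
  rw [h']
  exact Point.some_ne_zero h

theorem tor_inj (h2 : (2 : F) ≠ 0) (hd : d ≠ 0) {e e' : F} (he : e ^ 3 = e) (he' : e' ^ 3 = e')
    (h : tor d e = tor d e') : e = e' := by
  obtain ⟨h1, h1'⟩ := tor_eq h2 hd he
  obtain ⟨h3, h3'⟩ := tor_eq h2 hd he'
  rw [h1', h3'] at h
  simp only [Point.some.injEq] at h
  exact mul_right_cancel₀ hd h.1

theorem tor_add_self (h2 : (2 : F) ≠ 0) (hd : d ≠ 0) {e : F} (he : e ^ 3 = e) :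
    tor d e + tor d e = 0 := by
  obtain ⟨h, h'⟩ := tor_eq h2 hd he
  rw [h']
  exact Point.add_of_Y_eq rfl (by rw [W_negY, neg_zero])

end tor

/-- **PT2**. -/
theorem pt2 (zlv : ZlvStmt) (cnt : CntStmt) (ram : RamStmt) : Pt2Stmt := by
  intro F _ _ ϖ hloc h2 d hd l hl hl2 hN P hP
  have hq : 0 < qn F ϖ := hloc.uni
  have hd0 : d ≠ 0 := by
    rintro rfl
    rw [norm_zero] at hd
    rcases hd with h | h
    · exact one_ne_zero h.symm
    · exact hq.ne h
  have h2F : (2 : F) ≠ 0 := by
    intro h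
    apply h2
    rw [← hloc.lt_one, map_ofNat, h, norm_zero]
    exact one_pos
  letI : Module GaussianInt (Pt d) := gmod (algebraMap GaussianInt F)
  obtain ⟨z1, z2, z3, z4, -⟩ := zlv F ϖ hloc d hd0
  have hsub : ∀ Q R : Pt d, Big 1 Q → Big 1 R → Big 1 (Q + R) := by
    intro Q R hQ hR
    exact (z1 (max ‖zc Q‖ ‖zc R‖) Q R ⟨hQ, le_max_left _ _⟩ ⟨hR, le_max_right _ _⟩).1.1
  have hsmul : ∀ (a : GaussianInt) (Q : Pt d), Big 1 Q → Big 1 (a • Q) :=
    fun a Q hQ => (z2 ‖zc Q‖ a Q ⟨hQ, le_rfl⟩).1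
  have hP' : Big 1 (l • P) := hP
  have hcop : ∀ c : GaussianInt, ¬ l ∣ c → Big 1 (c • P) → Big 1 P := by
    intro c hc hcP
    obtain ⟨u, v, huv⟩ := hl.irreducible.coprime_iff_not_dvd.2 hc
    have h : P = u • (l • P) + v • (c • P) := by
      rw [smul_smul, smul_smul, ← add_smul, huv, one_smul]
    rw [h]
    exact hsub _ _ (hsmul _ _ hP') (hsmul _ _ hcP)
  have e0 : (0 : F) ^ 3 = 0 := by ring
  have e1 : (1 : F) ^ 3 = 1 := by ring
  have em : (-1 : F) ^ 3 = -1 := by ring
  have htwo : ∀ Q : Pt d, Q + Q = 0 → (2 : GaussianInt) • Q = 0 := by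
    intro Q hQ
    rw [two_smul, hQ]
  rcases hd with hd1 | hdq
  swap
  · -- the ramified case
    have hfin : ∀ Q : Pt d, Q + Q = 0 → Big 1 (P - Q) → Big 1 P := by
      intro Q hQ h
      apply hcop 2 hl2
      have h3 := hsmul 2 _ h
      rw [smul_sub, htwo Q hQ, sub_zero] at h3
      exact h3
    rcases ram F ϖ hloc h2 d hdq P with h | h | h | h
    · exact h
    · exact hfin _ (tor_add_self h2F hd0 e0) h
    · exact hfin _ (tor_add_self h2F hd0 e1) h
    · exact hfin _ (tor_add_self h2F hd0 em) h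
  · by_contra hPn
    set T : Fin 4 → Pt d := ![0, tor d 0, tor d 1, tor d (-1)] with hT
    have hT2 : ∀ i, (2 : GaussianInt) • T i = 0 := by
      intro i
      fin_cases i
      · exact smul_zero _
      · exact htwo _ (tor_add_self h2F hd0 e0)
      · exact htwo _ (tor_add_self h2F hd0 e1)
      · exact htwo _ (tor_add_self h2F hd0 em)
    have n01 : (0 : F) ≠ 1 := zero_ne_one
    have n0m : (0 : F) ≠ -1 := by
      intro h
      exact one_ne_zero (neg_eq_zero.1 h.symm)
    have n1m : (1 : F) ≠ -1 := by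
      intro h
      apply h2F
      linear_combination h
    have hTinj : Function.Injective T := by
      intro i j hij
      fin_cases i <;> fin_cases j <;> first
        | rfl
        | exact absurd hij.symm (tor_ne h2F hd0 e0)
        | exact absurd hij.symm (tor_ne h2F hd0 e1)
        | exact absurd hij.symm (tor_ne h2F hd0 em)
        | exact absurd hij (tor_ne h2F hd0 e0)
        | exact absurd hij (tor_ne h2F hd0 e1)
        | exact absurd hij (tor_ne h2F hd0 em)
        | exact absurd (tor_inj h2F hd0 e0 e1 hij) n01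
        | exact absurd (tor_inj h2F hd0 e1 e0 hij) n01.symm
        | exact absurd (tor_inj h2F hd0 e0 em hij) n0m
        | exact absurd (tor_inj h2F hd0 em e0 hij) n0m.symm
        | exact absurd (tor_inj h2F hd0 e1 em hij) n1m
        | exact absurd (tor_inj h2F hd0 em e1 hij) n1m.symm
    obtain ⟨R, hRc, hRi, -⟩ := exists_reps l hl.ne_zero
    set φ : Fin 4 × GaussianInt → Pt d := fun p => T p.1 + p.2 • P with hφ
    have key : ∀ p ∈ Finset.univ ×ˢ R, ∀ q ∈ Finset.univ ×ˢ R, Big 1 (φ p - φ q) → p = q := by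
      rintro ⟨i, a⟩ hp ⟨j, b⟩ hq' h
      rw [Finset.mem_product] at hp hq'
      have h3 : φ (i, a) - φ (j, b) = (T i - T j) + (a - b) • P := by
        simp only [hφ, sub_smul]
        abel
      rw [h3] at h
      have h4 := hsmul 2 _ h
      rw [smul_add, smul_sub, hT2, hT2, sub_zero, zero_add, smul_smul] at h4
      have h5 : l ∣ a - b := by
        by_contra h6
        apply hPn
        apply hcop (2 * (a - b)) _ h4
        intro h7
        rcases hl.dvd_or_dvd h7 with h8 | h8
        · exact hl2 h8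
        · exact h6 h8
      have hab := hRi a hp.2 b hq'.2 h5
      subst hab
      rw [sub_self, zero_smul, add_zero] at h
      have h6 := z4 2 (T i - T j) h h2
      have h7 : sm 2 (T i - T j) = (0 : Pt d) := by
        show (2 : GaussianInt) • (T i - T j) = 0
        rw [smul_sub, hT2, hT2, sub_zero]
      rw [h7, zc_zero, norm_zero] at h6
      have h8 := (z3 _ h).1 (norm_eq_zero.1 h6.symm)
      have h9 := hTinj (sub_eq_zero.1 h8)
      rw [h9]
    have hinj : Set.InjOn φ ((Finset.univ ×ˢ R : Finset (Fin 4 × GaussianInt)) : Set _) := by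
      intro p hp q hq' h
      apply key p hp q hq'
      rw [h, sub_self]
      left
      rfl
    have h3 := cnt F ϖ hloc h2 d hd1 ((Finset.univ ×ˢ R).image φ) (by
      intro P' hP'' Q' hQ' hne hb
      rw [Finset.mem_image] at hP'' hQ'
      obtain ⟨p, hp, rfl⟩ := hP''
      obtain ⟨q, hq', rfl⟩ := hQ'
      apply hne
      rw [key p hp q hq' hb])
    rw [Finset.card_image_of_injOn hinj, Finset.card_product, Finset.card_univ, Fintype.card_fin,
      hRc] at h3
    have h4 : 0 < l.norm := GaussianInt.norm_pos.2 hl.ne_zero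
    unfold nm at hN h3
    omega

end Pool.Agent.WAP.H45
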